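import Pool.Agent.X292.FW.Loc

/-!
# Weak approximation for almost all forms over `F_q(t)`
-/

set_option linter.unusedSectionVars false

namespace Pool.Agent.X292.FW

open Polynomial Module Pool.Agent.Y716.FF IsDedekindDomain IsDedekindDomain.HeightOneSpectrum
  WithZero

variable {F : Type*} [Field F] {ι : Type*}

/-- In the projective space over the completion at `v`, the point `x` is close to the point `z`: for
some `c ≠ 0` all `z i - c x i` have absolute value at most `e ^ (-m)` times that of a nonzero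
coordinate of `z`. -/
def ApproxAt (v : HeightOneSpectrum F[X]) (m : ℕ) (z : ι → v.adicCompletion (RatFunc F))
    (x : ι → F[X]) : Prop :=
  ∃ (r : ι) (c : v.adicCompletion (RatFunc F)), z r ≠ 0 ∧ c ≠ 0 ∧
    ∀ i, Valued.v (z i - c * algebraMap F[X] (v.adicCompletion (RatFunc F)) (x i)) ≤
      exp (-(m : ℤ)) * Valued.v (z r)

/-- In the projective space over the completion at infinity, the point `x` is close to the point `z`:
for some `c ≠ 0` all `z i - c x i` vanish to order at least `m` plus the order of a nonzero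
coordinate of `z`. -/
def ApproxAtInfty (m : ℕ) (z : ι → LaurentSeries F) (x : ι → F[X]) : Prop :=
  ∃ (r : ι) (c : LaurentSeries F), z r ≠ 0 ∧ c ≠ 0 ∧ ∀ i, ∀ n : ℤ, n < (z r).order + m →
    (z i - c * Pool.Agent.Y241.toInfty F (x i)).coeff n = 0

/-- Weak approximation with precision `m` at infinity and at all the places of degree at most `m`. -/
def WeakApprox (m : ℕ) (f : MvPolynomial ι F[X]) : Prop :=
  ∀ (z : ∀ v : HeightOneSpectrum F[X], ι → v.adicCompletion (RatFunc F)) (y : ι → LaurentSeries F),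
    (∀ v, z v ≠ 0 ∧ MvPolynomial.aeval (z v) f = 0) → y ≠ 0 →
    MvPolynomial.eval₂ (Pool.Agent.Y241.toInfty F) y f = 0 →
    ∃ x : ι → F[X], x ≠ 0 ∧ MvPolynomial.eval x f = 0 ∧
      (∀ v : HeightOneSpectrum F[X], (∃ Q ∈ v.asIdeal, Q ≠ 0 ∧ Q.natDegree ≤ m) →
        ApproxAt v m (z v) x) ∧ ApproxAtInfty m y x

variable [Fintype ι] [Finite F]

/-- the modulus of level `m` -/
noncomputable def modN (F : Type*) [Field F] [Finite F] (m : ℕ) : F[X] :=
  ∏ P ∈ primesLE F m, P ^ m

theorem modN_ne (m : ℕ) : modN F m ≠ 0 := by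
  unfold modN
  rw [Finset.prod_ne_zero_iff]
  intro P hP
  exact pow_ne_zero _ (mem_primesLE.mp hP).2.2.ne_zero

theorem dvd_modN {m : ℕ} {P : F[X]} (hP : P ∈ primesLE F m) : P ^ m ∣ modN F m :=
  Finset.dvd_prod_of_mem (fun P => P ^ m) hP

/-- the finite set of targets -/
noncomputable def targets (F : Type*) [Field F] [Finite F] (ι : Type*) [Fintype ι] (m : ℕ) :
    Finset ((ι → F[X]) × (ι → F[X])) := by
  classical exact (Fintype.piFinset (fun _ : ι => polyLT F (modN F m).natDegree)) ×ˢ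
    (Fintype.piFinset (fun _ : ι => polyLT F m))

theorem wa_of_targets {d m N : ℕ} {f : MvPolynomial ι F[X]} (hf : IsForm d (N + 1) f)
    (h : ∀ t ∈ targets F ι m, LocSolT N m t.1 t.2 f → SolT m t.1 t.2 f) : WeakApprox m f := by
  classical
  intro z y hz hy0 hyf
  -- data at the primes
  have hloc : ∀ P : F[X], (P.Monic ∧ Irreducible P) → ∃ c : ι → F[X],
      (∀ E : ℕ, ∃ (r : ι) (x : ι → F[X]), x r = 1 ∧ P ^ E ∣ MvPolynomial.eval x f ∧
        ∀ i, P ^ m ∣ x i - c i) ∧
      ∀ x : ι → F[X], (∀ i, P ^ m ∣ x i - c i) → ∀ v : HeightOneSpectrum F[X],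
        v.asIdeal = Ideal.span {P} → ApproxAt v m (z v) x := by
    rintro P ⟨hPm, hPi⟩
    have hne : Ideal.span {P} ≠ (⊥ : Ideal F[X]) := by
      rw [Ne, Ideal.span_singleton_eq_bot]; exact hPi.ne_zero
    have hpr : (Ideal.span {P} : Ideal F[X]).IsPrime :=
      (Ideal.span_singleton_prime hPi.ne_zero).mpr hPi.prime
    let w : HeightOneSpectrum F[X] := ⟨Ideal.span {P}, hpr, hne⟩
    obtain ⟨c, h1, h2⟩ := local_adic m f hf.1 w P rfl (z w) (hz w).1 (hz w).2
    refine ⟨c, h1, fun x hx v hv => ?_⟩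
    have hvw : v = w := HeightOneSpectrum.ext hv
    rw [hvw]
    obtain ⟨r, hr, h3⟩ := h2 x hx
    exact ⟨r, z w r, hr, hr, h3⟩
  choose! cP hcP1 hcP2 using hloc
  -- Chinese remainder theorem
  have hcrt : ∀ i, ∃ c : F[X], c ∈ polyLT F (modN F m).natDegree ∧
      ∀ P ∈ primesLE F m, P ^ m ∣ c - cP P i := by
    intro i
    have := Ideal.exists_forall_sub_mem_ideal (R := F[X])
      (I := fun P : primesLE F m => Ideal.span {(P : F[X]) ^ m}) (by
        intro P Q hPQ
        simp only [Function.onFun]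
        rw [Ideal.isCoprime_span_singleton_iff]
        exact (primes_coprime P.2 Q.2 (fun h => hPQ (Subtype.ext h))).pow) (fun P => cP P i)
    obtain ⟨c, hc⟩ := this
    refine ⟨c % modN F m, ?_, fun P hP => ?_⟩
    · rw [mem_polyLT, ← degree_eq_natDegree (modN_ne m)]
      exact EuclideanDomain.mod_lt _ (modN_ne m)
    · have h1 : P ^ m ∣ c - cP P i := Ideal.mem_span_singleton.mp (hc ⟨P, hP⟩)
      have h2 := EuclideanDomain.div_add_mod c (modN F m)
      have h3 : c % modN F m - cP P i = (c - cP P i) - modN F m * (c / modN F m) := by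
        linear_combination h2
      rw [h3]
      exact dvd_sub h1 ((dvd_modN hP).mul_right _)
  choose a ha1 ha2 using hcrt
  -- data at infinity
  obtain ⟨b, hb1, hb2, hb3⟩ := local_laurent m f hf.1 (N := N)
    (fun m => natDegree_le_of_degree_lt (hf.2 m)) y hy0 hyf
  have hmem : (a, b) ∈ targets F ι m := by
    unfold targets
    rw [Finset.mem_product, Fintype.mem_piFinset, Fintype.mem_piFinset]
    exact ⟨ha1, fun i => mem_polyLT.mpr (hb1 i)⟩
  have hL : LocSolT N m a b f := by
    refine ⟨fun P hPm hPi E => ?_, hb2⟩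
    obtain ⟨r, x, h1, h2, h3⟩ := hcP1 P ⟨hPm, hPi⟩ E
    refine ⟨r, x, h1, h2, fun hPd i => ?_⟩
    have := dvd_sub (h3 i) (ha2 i P (mem_primesLE.mpr ⟨hPd, hPm, hPi⟩))
    simpa using this
  obtain ⟨B, x, hx0, hxf, hxB, hxP, hxI⟩ := h (a, b) hmem hL
  refine ⟨x, hx0, hxf, fun v hv => ?_, ?_⟩
  · -- the monic generator
    obtain ⟨Q, hQ, hQ0, hQd⟩ := hv
    obtain ⟨g, hg⟩ := (IsPrincipalIdealRing.principal v.asIdeal).principal
    have hg' : v.asIdeal = Ideal.span {g} := hg
    have hg0 : g ≠ 0 := by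
      rintro rfl
      apply v.ne_bot
      rw [hg', Ideal.span_singleton_eq_bot]
    have hgp : Prime g := (Ideal.span_singleton_prime hg0).mp (hg' ▸ v.isPrime)
    have hP : v.asIdeal = Ideal.span {normalize g} := by
      rw [hg', Ideal.span_singleton_eq_span_singleton]
      exact associated_normalize g
    have hPi : Irreducible (normalize g) :=
      (associated_normalize g).irreducible hgp.irreducible
    have hPm : (normalize g).Monic := monic_normalize hg0
    have hPd : (normalize g).natDegree ≤ m := by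
      refine (natDegree_le_of_dvd ?_ hQ0).trans hQd
      rw [← Ideal.mem_span_singleton, ← hP]
      exact hQ
    refine hcP2 (normalize g) ⟨hPm, hPi⟩ x (fun i => ?_) v hP
    have := dvd_add (hxP _ hPm hPi hPd i) (ha2 i _ (mem_primesLE.mpr ⟨hPd, hPm, hPi⟩))
    simpa using this
  · exact hb3 B x hxB hxI

/-- locally soluble forms without weak approximation are rare -/
theorem exc_wa (e : ℕ) (he : e + 3 ≤ Fintype.card ι) (hk4 : 4 ≤ Fintype.card ι) (m : ℕ)
    {ε : ℝ} (hε : 0 < ε) :
    ∃ N₀ : ℕ, ∀ N, N₀ ≤ N →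
      (({f : MvPolynomial ι F[X] | IsForm (e + 2) (N + 1) f ∧ ¬ WeakApprox m f} :
        Set _).ncard : ℝ) ≤ ε * ((forms F ι (e + 2) (N + 1)).card : ℝ) := by
  classical
  set T := targets F ι m with hT
  set ε' : ℝ := min (ε / (T.card + 1)) 1 with hε'
  have hε'0 : 0 < ε' := lt_min (by positivity) one_pos
  choose N hN using fun t : (ι → F[X]) × (ι → F[X]) =>
    exc_countT (F := F) (ι := ι) m t.1 t.2 e he hk4 hε'0 (min_le_right _ _)
  refine ⟨T.sup N, fun M hM => ?_⟩
  rw [ncard_eq_filter]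
  set Fo := forms F ι (e + 2) (M + 1) with hFo
  have h1 : Fo.filter (fun f => ¬ WeakApprox m f) ⊆
      T.biUnion (fun t => Fo.filter (fun f => LocSolT M m t.1 t.2 f ∧ ¬ SolT m t.1 t.2 f)) := by
    intro f hf
    rw [Finset.mem_filter] at hf
    rw [Finset.mem_biUnion]
    by_contra hcon
    push Not at hcon
    apply hf.2
    refine wa_of_targets (mem_forms.mp hf.1) fun t ht hL => ?_
    by_contra hS
    exact hcon t ht (Finset.mem_filter.mpr ⟨hf.1, hL, hS⟩)
  have h2 : ((Fo.filter (fun f => ¬ WeakApprox m f)).card : ℝ) ≤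
      ∑ t ∈ T, ((Fo.filter (fun f => LocSolT M m t.1 t.2 f ∧ ¬ SolT m t.1 t.2 f)).card : ℝ) := by
    exact_mod_cast (Finset.card_le_card h1).trans Finset.card_biUnion_le
  refine h2.trans ?_
  have h3 : ∑ t ∈ T, ((Fo.filter (fun f => LocSolT M m t.1 t.2 f ∧ ¬ SolT m t.1 t.2 f)).card : ℝ) ≤
      T.card • (ε' * (Fo.card : ℝ)) := by
    apply Finset.sum_le_card_nsmul
    intro t ht
    exact hN t M ((Finset.le_sup ht).trans hM)
  refine h3.trans ?_
  rw [nsmul_eq_mul, ← mul_assoc]
  apply mul_le_mul_of_nonneg_right _ (Nat.cast_nonneg _)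
  have h4 : (0 : ℝ) < T.card + 1 := by positivity
  calc (T.card : ℝ) * ε' ≤ (T.card + 1) * (ε / (T.card + 1)) := by
        apply mul_le_mul (by linarith) (min_le_left _ _) hε'0.le h4.le
    _ = ε := by field_simp

/-- a diagonal sequence -/
theorem exists_diag {u : ℕ → ℕ → ℝ} (h0 : ∀ m A, 0 ≤ u m A)
    (h : ∀ m, Filter.Tendsto (u m) Filter.atTop (nhds 0)) :
    ∃ m : ℕ → ℕ, Filter.Tendsto m Filter.atTop Filter.atTop ∧
      Filter.Tendsto (fun A => u (m A) A) Filter.atTop (nhds 0) := by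
  have h1 : ∀ m : ℕ, ∃ A₀ : ℕ, ∀ A, A₀ ≤ A → u m A ≤ 1 / ((m : ℝ) + 1) := by
    intro m
    have h2 := (h m).eventually (gt_mem_nhds (show (0 : ℝ) < 1 / ((m : ℝ) + 1) by positivity))
    obtain ⟨A₀, hA⟩ := Filter.eventually_atTop.mp h2
    exact ⟨A₀, fun A h => (hA A h).le⟩
  choose A₀ hA₀ using h1
  refine ⟨fun A => Nat.findGreatest (fun m => A₀ m ≤ A) A, ?_, ?_⟩
  · rw [Filter.tendsto_atTop]
    intro M
    rw [Filter.eventually_atTop]
    exact ⟨max M (A₀ M), fun A hA => Nat.le_findGreatest ((le_max_left _ _).trans hA)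
      ((le_max_right _ _).trans hA)⟩
  · have hM : Filter.Tendsto (fun A => Nat.findGreatest (fun m => A₀ m ≤ A) A) Filter.atTop
        Filter.atTop := by
      rw [Filter.tendsto_atTop]
      intro M
      rw [Filter.eventually_atTop]
      exact ⟨max M (A₀ M), fun A hA => Nat.le_findGreatest ((le_max_left _ _).trans hA)
        ((le_max_right _ _).trans hA)⟩
    have h3 : Filter.Tendsto (fun A => 1 / (((Nat.findGreatest (fun m => A₀ m ≤ A) A : ℕ) : ℝ) + 1))
        Filter.atTop (nhds 0) := tendsto_one_div_add_atTop_nhds_zero_nat.comp hM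
    refine squeeze_zero' (Filter.Eventually.of_forall fun A => h0 _ _) ?_ h3
    rw [Filter.eventually_atTop]
    refine ⟨A₀ 0, fun A hA => hA₀ _ A ?_⟩
    exact Nat.findGreatest_spec (P := fun m => A₀ m ≤ A) (Nat.zero_le A) hA

/-- **Main theorem**, degree at least two. -/
theorem main (e : ℕ) (he : e + 3 ≤ Fintype.card ι) (hk4 : 4 ≤ Fintype.card ι) :
    ∃ m : ℕ → ℕ, Filter.Tendsto m Filter.atTop Filter.atTop ∧
      Filter.Tendsto (fun A : ℕ =>
        (({f : MvPolynomial ι F[X] | IsForm (e + 2) A f ∧ (ELS f ∧ WeakApprox (m A) f)} :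
          Set _).ncard : ℝ) /
        (({f : MvPolynomial ι F[X] | IsForm (e + 2) A f ∧ ELS f} : Set _).ncard : ℝ))
        Filter.atTop (nhds 1) := by
  classical
  obtain ⟨c, hc0, hc⟩ := main_positive (F := F) (ι := ι) e he hk4
  -- the exceptional proportions
  let u : ℕ → ℕ → ℝ := fun m A =>
    (({f : MvPolynomial ι F[X] | IsForm (e + 2) A f ∧ ¬ WeakApprox m f} : Set _).ncard : ℝ) /
      ((forms F ι (e + 2) A).card : ℝ)
  have hcard : ∀ A, (0 : ℝ) < ((forms F ι (e + 2) A).card : ℝ) := by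
    intro A
    have : 0 < (forms F ι (e + 2) A).card := Finset.card_pos.mpr ⟨0, mem_forms.mpr IsForm.zero⟩
    exact_mod_cast this
  have hu : ∀ m, Filter.Tendsto (u m) Filter.atTop (nhds 0) := by
    intro m
    rw [Metric.tendsto_atTop]
    intro ε hε
    obtain ⟨N₀, hN₀⟩ := exc_wa (F := F) (ι := ι) e he hk4 m (half_pos hε)
    refine ⟨N₀ + 1, fun A hA => ?_⟩
    obtain ⟨N, rfl⟩ : ∃ N, A = N + 1 := ⟨A - 1, by omega⟩
    have h1 := hN₀ N (by omega)
    have h2 : 0 ≤ u m (N + 1) := by positivity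
    rw [Real.dist_eq, sub_zero, abs_of_nonneg h2]
    refine lt_of_le_of_lt ?_ (half_lt_self hε)
    change _ / _ ≤ _
    rw [div_le_iff₀ (hcard _)]
    exact h1
  obtain ⟨m, hm1, hm2⟩ := exists_diag (fun m A => by positivity) hu
  refine ⟨m, hm1, ?_⟩
  have h3 : Filter.Tendsto (fun A => 1 - c⁻¹ * u (m A) A) Filter.atTop (nhds 1) := by
    have := (hm2.const_mul c⁻¹).const_sub 1
    simpa using this
  refine tendsto_of_tendsto_of_tendsto_of_le_of_le' h3 tendsto_const_nhds ?_ ?_
  · filter_upwards [hc] with A hA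
    rw [ncard_eq_filter, ncard_eq_filter]
    set Fo := forms F ι (e + 2) A with hFo
    have h4 : (({f : MvPolynomial ι F[X] | IsForm (e + 2) A f} : Set _).ncard : ℝ) = Fo.card := by
      rw [← Set.ncard_coe_finset]
      congr 2
      ext f
      simp [hFo, mem_forms]
    rw [h4, ncard_eq_filter] at hA
    have h5 : ((Fo.filter (fun f => SolK f)).card : ℝ) ≤ ((Fo.filter (fun f => ELS f)).card : ℝ) := by
      have : (Fo.filter (fun f => SolK f)).card ≤ (Fo.filter (fun f => ELS f)).card := by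
        apply Finset.card_le_card
        intro f hf
        rw [Finset.mem_filter] at hf ⊢
        exact ⟨hf.1, solK_els (mem_forms.mp hf.1) hf.2⟩
      exact_mod_cast this
    have h6 : ((Fo.filter (fun f => ELS f)).card : ℝ) ≤
        ((Fo.filter (fun f => ELS f ∧ WeakApprox (m A) f)).card : ℝ) +
        ((Fo.filter (fun f => ¬ WeakApprox (m A) f)).card : ℝ) := by
      have : Fo.filter (fun f => ELS f) ⊆ Fo.filter (fun f => ELS f ∧ WeakApprox (m A) f) ∪
          Fo.filter (fun f => ¬ WeakApprox (m A) f) := by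
        intro f hf
        rw [Finset.mem_filter] at hf
        rw [Finset.mem_union, Finset.mem_filter, Finset.mem_filter]
        by_cases hw : WeakApprox (m A) f
        · exact Or.inl ⟨hf.1, hf.2, hw⟩
        · exact Or.inr ⟨hf.1, hw⟩
      exact_mod_cast (Finset.card_le_card this).trans (Finset.card_union_le _ _)
    have h7 : ((Fo.filter (fun f => ¬ WeakApprox (m A) f)).card : ℝ) = u (m A) A * Fo.card := by
      change _ = _ / _ * _
      rw [div_mul_cancel₀ _ (hcard A).ne', ncard_eq_filter]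
    have h8 : (0 : ℝ) < c * Fo.card := mul_pos hc0 (hcard A)
    have h9 : (0 : ℝ) < ((Fo.filter (fun f => ELS f)).card : ℝ) := by linarith
    rw [le_div_iff₀ h9, sub_mul, one_mul]
    have h10 : u (m A) A * Fo.card ≤ c⁻¹ * u (m A) A * ((Fo.filter (fun f => ELS f)).card : ℝ) := by
      have h11 : 0 ≤ u (m A) A := by positivity
      calc u (m A) A * Fo.card = c⁻¹ * u (m A) A * (c * Fo.card) := by field_simp
        _ ≤ _ := by
          apply mul_le_mul_of_nonneg_left (by linarith) (by positivity)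
    linarith
  · filter_upwards with A
    rw [ncard_eq_filter, ncard_eq_filter]
    apply div_le_one_of_le₀ _ (Nat.cast_nonneg _)
    have : ((forms F ι (e + 2) A).filter (fun f => ELS f ∧ WeakApprox (m A) f)).card ≤
        ((forms F ι (e + 2) A).filter (fun f => ELS f)).card := by
      apply Finset.card_le_card
      intro f hf
      rw [Finset.mem_filter] at hf ⊢
      exact ⟨hf.1, hf.2.1⟩
    exact_mod_cast this

end Pool.Agent.X292.FW
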