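import Pool.Agent.Y716.FF.Final

/-!
# The class theorem with the position of the zero

(The proofs are those of `Pool.Agent.Y716.FF.ClassThm`.)
-/

namespace Pool.Agent.X292.FW

open Polynomial Module Pool.Agent.Y716.FF

variable {F : Type*} [Field F] [Finite F] {ι : Type*} [Fintype ι]

open scoped Classical in
/-- The class theorem: in a stable class almost all forms have a nontrivial zero. -/
theorem class_theorem_box (e : ℕ) (he : e + 3 ≤ Fintype.card ι) (hk4 : 4 ≤ Fintype.card ι)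
    {ε : ℝ} (hε : 0 < ε) (hε1 : ε ≤ 1) :
    ∃ w₀ : ℕ, ∀ w, w₀ ≤ w → ∀ D₁ : ℕ, ∃ N₀ : ℕ, ∀ N, N₀ ≤ N →
      ∀ (fc : MvPolynomial ι F[X]) (S J : F[X]) (xc v : ι → F[X]) (s j : ℕ) (xt vt : ι → F[X])
        (A' : ℕ), Stable e N w fc S J xc v s j xt vt → S.natDegree + s ≤ D₁ →
        J.natDegree + j ≤ D₁ → A' + (S * J).natDegree + (s + j) = N + 1 →
        (((forms F ι (e + 2) A').filter
          (fun g => ¬ ∃ (B : ℕ) (x : ι → F[X]), x ≠ 0 ∧ x ∈ box B S xc s xt ∧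
            MvPolynomial.eval x (mem' fc S J g) = 0)).card : ℝ) ≤
        ε * ((forms F ι (e + 2) A').card : ℝ) := by
  set q : ℝ := (Nat.card F : ℝ) with hq
  have hq2 : 2 ≤ q := by
    rw [hq]
    exact_mod_cast Finite.one_lt_card (α := F)
  have hq1 : 1 ≤ q := by linarith
  have hq0 : 0 < q := by linarith
  -- choose L
  obtain ⟨L, hL⟩ : ∃ L : ℕ, (q⁻¹) ^ L < ε / 64 := by
    apply exists_pow_lt_of_lt_one (by positivity)
    rw [inv_lt_one₀ hq0]; linarith
  have hqi : 0 < q⁻¹ := inv_pos.mpr hq0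
  have hqi1 : q⁻¹ ≤ 1 := inv_le_one_of_one_le₀ hq1
  refine ⟨L, fun w hw D₁ => ?_⟩
  set k := Fintype.card ι with hk
  obtain ⟨T, hT⟩ : ∃ T, T = 2 * (k * D₁) + 4 + 2 + L := ⟨_, rfl⟩
  obtain ⟨W, hW⟩ : ∃ W, W = ((∏ P ∈ primesLE F w, P) ^ (2 * T)).natDegree := ⟨_, rfl⟩
  obtain ⟨C, hC⟩ : ∃ C, C = W + 4 * T + k * D₁ + D₁ + L + k + 1 := ⟨_, rfl⟩
  refine ⟨64 * C + 2 * D₁, fun N hN fc S J xc v s j xt vt A' h hD1 hD2 hA => ?_⟩
  have hSJd : (S * J).natDegree ≤ S.natDegree + J.natDegree := natDegree_mul_le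
  have hA'C : 64 * C ≤ A' := by omega
  obtain ⟨B, hB⟩ : ∃ B, B = A' + A' / 8 := ⟨_, rfl⟩
  obtain ⟨m, hm⟩ : ∃ m, m + 1 = (A' - 1) / 2 := ⟨(A' - 1) / 2 - 1, by omega⟩
  have hkD : D₁ ≤ k * D₁ := Nat.le_mul_of_pos_left _ (by omega)
  have hs1 : 1 ≤ s := by have := h.hjs; omega
  have cheb := chebyshev_class h (A' := A') (B := B) (a := m + 1) (T := T) hA (by omega) (by omega)
    (by rw [← hW]; omega) (by rw [← hW]; omega) hk4
  have hXge := card_testSet_ge (m := m) (B := B) (S := S) (s := s) (by omega) hs1 h.hS w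
    h.prim_of_dvd h.dvd_S h.hxt hk4
  rw [← hq, ← hk] at cheb hXge
  set X' := testSet B (m + 1) S xc s xt with hX'
  set G := forms F ι (e + 2) A' with hG
  set n0 := B + 1 - s - S.natDegree with hn0
  obtain ⟨m0, hm0⟩ : ∃ m0, m0 = A' + (e + 2) * B := ⟨_, rfl⟩
  rw [← hm0] at cheb
  have hn0' : n0 + (s + S.natDegree) = B + 1 := by omega
  have hkn0 : k * (n0 + (s + S.natDegree)) = k * (B + 1) := by rw [hn0']
  have hkn1 : k * (s + S.natDegree) ≤ k * D₁ := Nat.mul_le_mul_left _ (by omega)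
  -- monotonicity: a general tool
  have hsmall : ∀ E₁ E₂ : ℕ, E₁ + L ≤ E₂ → q ^ E₁ ≤ ε / 64 * q ^ E₂ := by
    intro E₁ E₂ hE
    have h1 : q ^ E₁ = (q⁻¹) ^ L * q ^ (E₁ + L) := by
      rw [pow_add, mul_comm (q ^ E₁), ← mul_assoc, ← mul_pow, inv_mul_cancel₀ hq0.ne', one_pow,
        one_mul]
    rw [h1]
    apply mul_le_mul hL.le (pow_le_pow_right₀ hq1 hE) (by positivity) (by positivity)
  have hww : (q⁻¹) ^ w ≤ ε / 64 :=
    (pow_le_pow_of_le_one hqi.le hqi1 hw).trans hL.le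
  have hQ : 0 < q ^ (n0 * k) := by positivity
  -- bound for the nonprimitive part
  have hb1 : (B : ℝ) * q ^ B ≤ ε / 64 * q ^ (n0 * k) := by
    have h1 : (B : ℝ) ≤ q ^ B := by
      have h2 : (B : ℝ) ≤ (2:ℝ) ^ B := by exact_mod_cast (Nat.lt_two_pow_self (n := B)).le
      exact h2.trans (pow_le_pow_left₀ (by norm_num) hq2 B)
    calc (B : ℝ) * q ^ B ≤ q ^ B * q ^ B := mul_le_mul_of_nonneg_right h1 (by positivity)
      _ = q ^ (B + B) := by rw [pow_add]
      _ ≤ _ := by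
        apply hsmall
        have h3 : n0 * 4 ≤ n0 * k := Nat.mul_le_mul_left _ hk4
        omega
  -- bound for the unbalanced part
  have hb2 : q ^ (B + m + 1 + (B - m) * k) ≤ ε / 64 * q ^ (n0 * k) := by
    apply hsmall
    obtain ⟨t, ht⟩ : ∃ t, t = B - m := ⟨_, rfl⟩
    rw [← ht]
    -- n0 * k = (B + 1) * k - (s + deg S) * k ; t = B - m
    have h1 : n0 * k + (s + S.natDegree) * k = (t + (m + 1)) * k := by
      rw [← add_mul]; congr 1; omega
    have h2 : (s + S.natDegree) * k ≤ k * D₁ := by rw [mul_comm]; exact hkn1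
    have h3 : (m + 1) * 4 ≤ (m + 1) * k := Nat.mul_le_mul_left _ hk4
    have h4 : (t + (m + 1)) * k = t * k + (m + 1) * k := by rw [add_mul]
    omega
  have hXlow : (1 - 3 * (ε / 64)) * q ^ (n0 * k) ≤ (X'.card : ℝ) := by
    refine le_trans ?_ hXge
    nlinarith
  -- the count
  have hZle : (((G.filter (fun g => ¬ ∃ (B : ℕ) (x : ι → F[X]), x ≠ 0 ∧ x ∈ box B S xc s xt ∧
      MvPolynomial.eval x (mem' fc S J g) = 0)).card : ℕ) : ℝ) ≤
      ((G.filter (fun g => ∀ x ∈ X', MvPolynomial.eval x (mem' fc S J g) ≠ 0)).card : ℝ) := by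
    have : (G.filter (fun g => ¬ ∃ (B : ℕ) (x : ι → F[X]), x ≠ 0 ∧ x ∈ box B S xc s xt ∧
      MvPolynomial.eval x (mem' fc S J g) = 0)).card ≤
      (G.filter (fun g => ∀ x ∈ X', MvPolynomial.eval x (mem' fc S J g) ≠ 0)).card := by
      apply Finset.card_le_card
      intro g hg
      rw [Finset.mem_filter] at hg ⊢
      refine ⟨hg.1, fun x hx h0 => hg.2 ⟨B, x, ?_, (mem_testSet.mp hx).1, h0⟩⟩
      have hd := box_degEq hs1 h.hxt (mem_testSet.mp hx).1
      intro hx0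
      obtain ⟨i, hi⟩ := hd.2
      rw [hx0, Pi.zero_apply, degree_zero] at hi
      exact absurd hi.symm (WithBot.natCast_ne_bot B)
    exact_mod_cast this
  refine hZle.trans ?_
  apply final_ineq (a := (q⁻¹) ^ w) (R₁ := ε / 64) (R₂ := ε / 64) (η := 3 * (ε / 64))
    (X := (X'.card : ℝ)) (Q := q ^ (n0 * k)) hε hε1 (by linarith) (by positivity) (by linarith)
    (by linarith) (by linarith) (by positivity) (by positivity) hQ (by positivity) hXlow
  refine cheb.trans ?_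
  apply mul_le_mul_of_nonneg_left _ (by positivity)
  have hQ2 : q ^ (2 * (n0 * k)) = (q ^ (n0 * k)) ^ 2 := by rw [← pow_mul]; congr 1; ring
  have hQ2' : (q ^ (n0 * k)) ^ 2 = q ^ (n0 * k + n0 * k) := by rw [sq, pow_add]
  have hR1 : 4 * q ^ (2 * (k * (B + 1)) + 4) * (q⁻¹) ^ T ≤ ε / 64 * (q ^ (n0 * k)) ^ 2 := by
    have h1 : (4:ℝ) ≤ q ^ 2 := by nlinarith
    calc 4 * q ^ (2 * (k * (B + 1)) + 4) * (q⁻¹) ^ T
        ≤ q ^ 2 * q ^ (2 * (k * (B + 1)) + 4) * (q⁻¹) ^ T := by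
          apply mul_le_mul_of_nonneg_right _ (by positivity)
          exact mul_le_mul_of_nonneg_right h1 (by positivity)
      _ = q ^ (2 * (k * (B + 1)) + 4 + 2) * (q⁻¹) ^ T := by rw [pow_add q _ 2]; ring
      _ ≤ q ^ (2 * (k * n0) + T - L) * (q⁻¹) ^ T := by
          apply mul_le_mul_of_nonneg_right _ (by positivity)
          apply pow_le_pow_right₀ hq1
          have h2 : k * (n0 + (s + S.natDegree)) = k * n0 + k * (s + S.natDegree) := by ring
          omega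
      _ ≤ ε / 64 * q ^ (2 * (k * n0) + T) * (q⁻¹) ^ T := by
          apply mul_le_mul_of_nonneg_right _ (by positivity)
          apply hsmall
          omega
      _ = ε / 64 * (q ^ (n0 * k)) ^ 2 := by
          rw [pow_add, hQ2', mul_assoc, mul_assoc, ← mul_pow, mul_inv_cancel₀ hq0.ne', one_pow,
            mul_one]
          congr 2
          ring
  have hR2 : q ^ (n0 * k + 1) * q ^ m0 ≤ ε / 64 * (q ^ (n0 * k)) ^ 2 := by
    rw [hQ2', ← pow_add]
    apply hsmall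
    -- need m0 + 1 + L ≤ n0 * k
    have h1 : (e + 3) * (B + 1) ≤ k * (B + 1) := Nat.mul_le_mul_right _ he
    have h2 : k * (n0 + (s + S.natDegree)) = k * n0 + k * (s + S.natDegree) := by ring
    have h3 : n0 * k = k * n0 := by ring
    have h4 : (e + 3) * (B + 1) = (e + 2) * B + B + e + 3 := by ring
    omega
  rw [hQ2]
  linarith

end Pool.Agent.X292.FW
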