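import Pool.Agent.X292.FW.Ext

/-!
# The number of exceptional forms for a target

(The proofs are those of `Pool.Agent.Y716.FF.Exc`.)
-/

set_option linter.unusedSectionVars false

namespace Pool.Agent.X292.FW

open Polynomial Module Pool.Agent.Y716.FF

variable {F : Type*} [Field F] [Finite F] {ι : Type*} [Fintype ι]

/-- approximate zeros at all places; at the places of degree at most `m` and at infinity they are near
the target -/
def LocSolT (N m : ℕ) (a b : ι → F[X]) (f : MvPolynomial ι F[X]) : Prop :=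
  (∀ P : F[X], P.Monic → Irreducible P → ∀ E : ℕ,
    ∃ (r : ι) (x : ι → F[X]), x r = 1 ∧ P ^ E ∣ MvPolynomial.eval x f ∧
      (P.natDegree ≤ m → ∀ i, P ^ m ∣ x i - a i)) ∧
  ∀ E : ℕ, ∃ (r : ι) (x : ι → F[X]), x r = 1 ∧ X ^ E ∣ MvPolynomial.eval x (revForm N f) ∧
    ∀ i, X ^ m ∣ x i - b i

/-- a zero near the target -/
def SolT (m : ℕ) (a b : ι → F[X]) (f : MvPolynomial ι F[X]) : Prop :=
  ∃ (B : ℕ) (x : ι → F[X]), x ≠ 0 ∧ MvPolynomial.eval x f = 0 ∧ (∀ i, (x i).natDegree ≤ B) ∧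
    (∀ P : F[X], P.Monic → Irreducible P → P.natDegree ≤ m → ∀ i, P ^ m ∣ x i - a i) ∧
    ∀ i, X ^ m ∣ reflect B (x i) - b i

/-- the coset of `f` contains a stable form with data near the target -/
def StabT (e N w ℓ A' m : ℕ) (a b : ι → F[X]) (f : MvPolynomial ι F[X]) : Prop :=
  ∃ g₀, IsForm (e + 2) A' g₀ ∧ ∃ (S J : F[X]) (xc v : ι → F[X]) (s j : ℕ) (xt vt : ι → F[X]),
      Stable e N w (f + MvPolynomial.C ((∏ P ∈ primesLE F w, P) ^ (2 * ℓ)) * g₀) S J xc v s j xt vt ∧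
      S * J = (∏ P ∈ primesLE F w, P) ^ (2 * ℓ) ∧ s + j = 2 * ℓ ∧
      (∀ P ∈ primesLE F w, P.natDegree ≤ m → P ^ m ∣ S ∧ ∀ i, P ^ m ∣ xc i - a i) ∧
      m ≤ s ∧ ∀ i, X ^ m ∣ xt i - b i

theorem StabT.shift {e N w ℓ A' m : ℕ} {a b : ι → F[X]} {f g : MvPolynomial ι F[X]}
    (hg : IsForm (e + 2) A' g) (h : StabT e N w ℓ A' m a b f) :
    StabT e N w ℓ A' m a b (f - MvPolynomial.C ((∏ P ∈ primesLE F w, P) ^ (2 * ℓ)) * g) := by
  obtain ⟨g₀, hg₀, S, J, xc, v, s, j, xt, vt, h1, h2, h3⟩ := h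
  refine ⟨g₀ + g, hg₀.add hg, S, J, xc, v, s, j, xt, vt, ?_, h2, h3⟩
  have : f - MvPolynomial.C ((∏ P ∈ primesLE F w, P) ^ (2 * ℓ)) * g +
      MvPolynomial.C ((∏ P ∈ primesLE F w, P) ^ (2 * ℓ)) * (g₀ + g) =
      f + MvPolynomial.C ((∏ P ∈ primesLE F w, P) ^ (2 * ℓ)) * g₀ := by ring
  rw [this]
  exact h1

theorem solT_of_box {w m : ℕ} (hmw : m ≤ w) {a b : ι → F[X]} {f : MvPolynomial ι F[X]} {S : F[X]}
    {xc : ι → F[X]} {s : ℕ} {xt : ι → F[X]}
    (h1 : ∀ P ∈ primesLE F w, P.natDegree ≤ m → P ^ m ∣ S ∧ ∀ i, P ^ m ∣ xc i - a i)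
    (h2 : m ≤ s) (h3 : ∀ i, X ^ m ∣ xt i - b i) {B : ℕ} {x : ι → F[X]} (hx0 : x ≠ 0)
    (hx : x ∈ box B S xc s xt) (hf : MvPolynomial.eval x f = 0) : SolT m a b f := by
  obtain ⟨k1, k2, k3⟩ := mem_box.mp hx
  refine ⟨B, x, hx0, hf, k1, fun P hPm hPi hPd i => ?_, fun i => ?_⟩
  · obtain ⟨h4, h5⟩ := h1 P (mem_primesLE.mpr ⟨hPd.trans hmw, hPm, hPi⟩) hPd
    have := dvd_add (h4.trans (k2 i)) (h5 i)
    simpa using this
  · have := dvd_add ((pow_dvd_pow X h2).trans (k3 i)) (h3 i)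
    simpa using this

open scoped Classical in
theorem exc_countT (m : ℕ) (a b : ι → F[X]) (e : ℕ) (he : e + 3 ≤ Fintype.card ι) (hk4 : 4 ≤ Fintype.card ι)
    {ε : ℝ} (hε : 0 < ε) (hε1 : ε ≤ 1) :
    ∃ N₀ : ℕ, ∀ N, N₀ ≤ N →
      (((forms F ι (e + 2) (N + 1)).filter (fun f => LocSolT N m a b f ∧ ¬ SolT m a b f)).card : ℝ) ≤
        ε * ((forms F ι (e + 2) (N + 1)).card : ℝ) := by
  set q : ℝ := (Nat.card F : ℝ) with hq
  have hq2 : 2 ≤ q := by
    rw [hq]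
    exact_mod_cast Finite.one_lt_card (α := F)
  have hq0 : 0 < q := by linarith
  obtain ⟨w₀, hw⟩ := class_theorem_box (F := F) e he hk4 (ε := ε / 2) (by positivity) (by linarith)
  obtain ⟨w, hw0w, hmw⟩ : ∃ w, w₀ ≤ w ∧ m ≤ w := ⟨max w₀ m, le_max_left _ _, le_max_right _ _⟩
  have hcl := hw w hw0w
  set k := Fintype.card ι with hk
  set W : F[X] := ∏ P ∈ primesLE F w, P with hW
  set p := (primesLE F w).card with hp
  -- choose ℓ
  obtain ⟨ℓ₀, hℓ₀⟩ : ∃ ℓ : ℕ, (q⁻¹) ^ ℓ < ε / 2 / ((p + 1) * k + 1) := by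
    apply exists_pow_lt_of_lt_one (by positivity)
    rw [inv_lt_one₀ hq0]; linarith
  obtain ⟨ℓ, hℓ1, hmℓ, hℓ⟩ : ∃ ℓ : ℕ, 1 ≤ ℓ ∧ m ≤ ℓ ∧ (q⁻¹) ^ ℓ * ((p + 1) * k + 1) ≤ ε / 2 := by
    refine ⟨ℓ₀ + m + 1, by omega, by omega, ?_⟩
    have h1 : (q⁻¹) ^ (ℓ₀ + m + 1) ≤ (q⁻¹) ^ ℓ₀ := by
      apply pow_le_pow_of_le_one (inv_nonneg.mpr hq0.le) _ (by omega)
      exact inv_le_one_of_one_le₀ (by linarith)
    have h2 : (0:ℝ) < (p + 1) * k + 1 := by positivity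
    calc (q⁻¹) ^ (ℓ₀ + m + 1) * ((p + 1) * k + 1) ≤ (ε / 2 / ((p + 1) * k + 1)) * ((p + 1) * k + 1) :=
          mul_le_mul_of_nonneg_right (h1.trans hℓ₀.le) h2.le
      _ = ε / 2 := by field_simp
  set Ω : F[X] := W ^ (2 * ℓ) with hΩ
  obtain ⟨N₁, hN₁⟩ := hcl (Ω.natDegree + 2 * ℓ)
  refine ⟨N₁ + Ω.natDegree + 2 * ℓ + ℓ * w, fun N hN => ?_⟩
  obtain ⟨A', hA'⟩ : ∃ A', A' + Ω.natDegree + 2 * ℓ = N + 1 := ⟨N + 1 - Ω.natDegree - 2 * ℓ, by omega⟩
  have hW0 : W ≠ 0 := by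
    rw [hW, Finset.prod_ne_zero_iff]
    intro P hP
    exact (mem_primesLE.mp hP).2.2.ne_zero
  have hΩ0 : Ω ≠ 0 := pow_ne_zero _ hW0
  set Fo := forms F ι (e + 2) (N + 1) with hFo
  set G' := forms F ι (e + 2) A' with hG'
  -- (a)
  have ha : ∀ f, StabT e N w ℓ A' m a b f →
      ((G'.filter (fun g => ¬ SolT m a b (f + MvPolynomial.C Ω * g))).card : ℝ)
      ≤ ε / 2 * (G'.card : ℝ) := by
    rintro f ⟨g₀, hg₀, S, J, xc, v, s, j, xt, vt, h1, h2, h3, k1, k2, k3⟩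
    have hSd : S.natDegree + J.natDegree = Ω.natDegree := by
      rw [← natDegree_mul h1.hS h1.hJ, h2]
    have key := hN₁ N (by omega) _ S J xc v s j xt vt A' h1 (by omega) (by omega)
      (by rw [h2, h3, ← hΩ]; omega)
    refine le_trans ?_ key
    have : (G'.filter (fun g => ¬ SolT m a b (f + MvPolynomial.C Ω * g))).card ≤
        (G'.filter (fun g => ¬ ∃ (B : ℕ) (x : ι → F[X]), x ≠ 0 ∧ x ∈ box B S xc s xt ∧
          MvPolynomial.eval x (mem' (f + MvPolynomial.C Ω * g₀) S J g) = 0)).card := by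
      apply Finset.card_le_card_of_injOn (fun g => g - g₀)
      · intro g hg
        have hg' := Finset.mem_filter.mp (Finset.mem_coe.mp hg)
        simp only [Finset.mem_coe, Finset.mem_filter]
        refine ⟨mem_forms.mpr ((mem_forms.mp hg'.1).sub hg₀), ?_⟩
        have h4 : mem' (f + MvPolynomial.C Ω * g₀) S J (g - g₀) = f + MvPolynomial.C Ω * g := by
          unfold mem'
          rw [h2]; ring
        rw [h4]
        rintro ⟨B, x, hx0, hx, hxf⟩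
        exact hg'.2 (solT_of_box hmw k1 k2 k3 hx0 hx hxf)
      · intro g _ g' _ h
        exact sub_left_injective h
    exact_mod_cast this
  -- (b)
  have hb : ((Fo.filter (fun f => StabT e N w ℓ A' m a b f ∧ ¬ SolT m a b f)).card : ℝ) ≤ ε / 2 * Fo.card := by
    have h1 : (Fo.filter (fun f => StabT e N w ℓ A' m a b f ∧ ¬ SolT m a b f)).card * G'.card ≤
        ∑ f ∈ Fo.filter (fun f => StabT e N w ℓ A' m a b f),
          (G'.filter (fun g => ¬ SolT m a b (f + MvPolynomial.C Ω * g))).card := by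
      rw [← Finset.card_product, ← Finset.card_sigma]
      apply Finset.card_le_card_of_injOn
        (fun r => (⟨r.1 - MvPolynomial.C Ω * r.2, r.2⟩ : (_ : MvPolynomial ι F[X]) × MvPolynomial ι F[X]))
      · rintro ⟨f, g⟩ hr
        simp only [Finset.coe_product, Set.mem_prod, Finset.mem_coe, Finset.mem_filter] at hr
        obtain ⟨⟨h1, h2, h3⟩, h4⟩ := hr
        simp only [Finset.mem_coe, Finset.mem_sigma, Finset.mem_filter]
        have hgf : IsForm (e + 2) (N + 1) (MvPolynomial.C Ω * g) :=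
          (IsForm.C_mul (le_refl _) (mem_forms.mp h4)).mono (by omega)
        refine ⟨⟨mem_forms.mpr ((mem_forms.mp h1).sub hgf), h2.shift (mem_forms.mp h4)⟩, h4, ?_⟩
        have : f - MvPolynomial.C Ω * g + MvPolynomial.C Ω * g = f := by ring
        rw [this]
        exact h3
      · rintro ⟨f, g⟩ _ ⟨f', g'⟩ _ heq
        simp only [Sigma.mk.injEq] at heq
        obtain ⟨h1, h2⟩ := heq
        have h2' : g = g' := eq_of_heq h2
        subst h2'
        have : f = f' := sub_left_injective h1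
        rw [this]
    have hG0 : 0 < (G'.card : ℝ) := by
      have : 0 < G'.card := Finset.card_pos.mpr ⟨0, mem_forms.mpr IsForm.zero⟩
      exact_mod_cast this
    have h2 : ((Fo.filter (fun f => StabT e N w ℓ A' m a b f ∧ ¬ SolT m a b f)).card : ℝ) * G'.card ≤
        (ε / 2 * Fo.card) * G'.card := by
      have h3 := (Nat.cast_le (α := ℝ)).mpr h1
      push_cast at h3
      refine h3.trans ?_
      calc _ ≤ (Fo.filter (fun f => StabT e N w ℓ A' m a b f)).card • (ε / 2 * (G'.card : ℝ)) :=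
            Finset.sum_le_card_nsmul _ _ _ (fun f hf => ha f (Finset.mem_filter.mp hf).2)
        _ = ((Fo.filter (fun f => StabT e N w ℓ A' m a b f)).card : ℝ) * (ε / 2 * (G'.card : ℝ)) := by
            rw [nsmul_eq_mul]
        _ ≤ (Fo.card : ℝ) * (ε / 2 * (G'.card : ℝ)) := by
            apply mul_le_mul_of_nonneg_right _ (by positivity)
            exact_mod_cast Finset.card_filter_le _ _
        _ = _ := by ring
    exact le_of_mul_le_mul_right h2 hG0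
  -- (c)
  have hbad : ∀ P : F[X], P.Monic → 1 ≤ P.natDegree → P.natDegree * ℓ ≤ N + 1 →
      ((Fo.filter (fun f => BadAt (P ^ ℓ) f)).card : ℝ) ≤ (q⁻¹) ^ ℓ * k * Fo.card := by
    intro P hPm hP1 hPN
    have hnd : (P ^ ℓ).natDegree = ℓ * P.natDegree := natDegree_pow P ℓ
    have h1 := bad_count (F := F) (ι := ι) e (N + 1) (hPm.pow ℓ)
      (by rw [hnd]; exact Nat.mul_pos (by omega) (by omega)) (by rw [hnd, mul_comm]; exact hPN)
    have h2 := (Nat.cast_le (α := ℝ)).mpr h1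
    push_cast at h2
    rw [← hq, ← hFo, ← hk] at h2
    have h3 : q ^ ℓ ≤ q ^ (P ^ ℓ).natDegree := by
      apply pow_le_pow_right₀ (by linarith)
      rw [hnd]
      exact Nat.le_mul_of_pos_right _ (by omega)
    have h4 : ((Fo.filter (fun f => BadAt (P ^ ℓ) f)).card : ℝ) * q ^ ℓ ≤ k * Fo.card :=
      (mul_le_mul_of_nonneg_left h3 (by positivity)).trans h2
    rw [inv_pow, mul_assoc, inv_mul_eq_div, le_div_iff₀ (by positivity)]
    exact h4
  have hcov : Fo.filter (fun f => LocSolT N m a b f ∧ ¬ SolT m a b f) ⊆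
      (Fo.filter (fun f => StabT e N w ℓ A' m a b f ∧ ¬ SolT m a b f)) ∪
      ((primesLE F w).biUnion (fun P => Fo.filter (fun f => BadAt (P ^ ℓ) f)) ∪
      Fo.filter (fun f => BadAt (X ^ ℓ) (revForm N f))) := by
    intro f hf
    obtain ⟨hf1, hf2, hf3⟩ := Finset.mem_filter.mp hf
    rw [Finset.mem_union, Finset.mem_union, Finset.mem_biUnion, Finset.mem_filter,
      Finset.mem_filter]
    by_cases hbf : ∃ P ∈ primesLE F w, BadAt (P ^ ℓ) f
    · obtain ⟨P, hP, hb⟩ := hbf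
      right; left
      exact ⟨P, hP, Finset.mem_filter.mpr ⟨hf1, hb⟩⟩
    by_cases hbr : BadAt (X ^ ℓ) (revForm N f)
    · right; right; exact ⟨hf1, hbr⟩
    left
    refine ⟨hf1, ?_, hf3⟩
    push Not at hbf
    have hloc : ∀ P ∈ primesLE F w, ∃ x : ι → F[X], (∃ r, x r = 1) ∧
        P ^ (2 * ℓ) ∣ MvPolynomial.eval x f ∧ (P.natDegree ≤ m → ∀ i, P ^ m ∣ x i - a i) := by
      intro P hP
      obtain ⟨r, x, h1, h2, h3⟩ := hf2.1 P (mem_primesLE.mp hP).2.1 (mem_primesLE.mp hP).2.2 (2 * ℓ)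
      exact ⟨x, ⟨r, h1⟩, h2, h3⟩
    choose! xP hx1 hx2 hx3 using hloc
    obtain ⟨rt, xt, ht1, ht2, ht3⟩ := hf2.2 (2 * ℓ)
    obtain ⟨S, J, xc, v, s, j, vt, h1, h2, h3, h4, h5, h6⟩ := exists_stable_at (w := w) (N := N)
      (f := f) (e := e) hℓ1 (mem_forms.mp hf1) xP xt
      (fun P hP => ⟨hx1 P hP, hx2 P hP, hbf P hP⟩) ⟨⟨rt, ht1⟩, ht2, hbr⟩
    refine ⟨0, IsForm.zero, S, J, xc, v, s, j, xt, vt, ?_, h2, h3, fun P hP hPm =>
      ⟨(pow_dvd_pow P hmℓ).trans (h4 P hP), fun i => ?_⟩, by omega, ht3⟩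
    · rw [mul_zero, add_zero]
      exact h1
    · have := dvd_add ((pow_dvd_pow P hmℓ).trans (h5 P hP i)) (hx3 P hP hPm i)
      simpa using this
  have h1 : ((Fo.filter (fun f => LocSolT N m a b f ∧ ¬ SolT m a b f)).card : ℝ) ≤
      ((Fo.filter (fun f => StabT e N w ℓ A' m a b f ∧ ¬ SolT m a b f)).card : ℝ) +
      ((∑ P ∈ primesLE F w, ((Fo.filter (fun f => BadAt (P ^ ℓ) f)).card : ℝ)) +
      ((Fo.filter (fun f => BadAt (X ^ ℓ) (revForm N f))).card : ℝ)) := by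
    have h2 := (Finset.card_le_card hcov).trans ((Finset.card_union_le _ _).trans
      (Nat.add_le_add_left ((Finset.card_union_le _ _).trans
        (Nat.add_le_add_right Finset.card_biUnion_le _)) _))
    exact_mod_cast h2
  have h2 : (∑ P ∈ primesLE F w, ((Fo.filter (fun f => BadAt (P ^ ℓ) f)).card : ℝ)) ≤
      p * ((q⁻¹) ^ ℓ * k * Fo.card) := by
    calc _ ≤ (primesLE F w).card • ((q⁻¹) ^ ℓ * k * (Fo.card : ℝ)) := by
          apply Finset.sum_le_card_nsmul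
          intro P hP
          have hP' := mem_primesLE.mp hP
          apply hbad P hP'.2.1 hP'.2.2.natDegree_pos
          have : P.natDegree * ℓ ≤ w * ℓ := Nat.mul_le_mul_right _ hP'.1
          have h5 : w * ℓ = ℓ * w := by ring
          omega
      _ = _ := by rw [nsmul_eq_mul]
  have h3 : ((Fo.filter (fun f => BadAt (X ^ ℓ) (revForm N f))).card : ℝ) ≤
      (q⁻¹) ^ ℓ * k * Fo.card := by
    refine le_trans ?_ (hbad X monic_X (by rw [natDegree_X]) (by rw [natDegree_X]; omega))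
    exact_mod_cast bad_rev_count e N (X ^ ℓ)
  have hFo0 : (0:ℝ) ≤ Fo.card := Nat.cast_nonneg _
  have h4 : (p * ((q⁻¹) ^ ℓ * k * Fo.card) + (q⁻¹) ^ ℓ * k * Fo.card : ℝ) ≤ ε / 2 * Fo.card := by
    have h5 : (p * ((q⁻¹) ^ ℓ * k * Fo.card) + (q⁻¹) ^ ℓ * k * Fo.card : ℝ) =
        ((q⁻¹) ^ ℓ * ((p + 1) * k)) * Fo.card := by ring
    rw [h5]
    apply mul_le_mul_of_nonneg_right _ hFo0
    have : 0 ≤ (q⁻¹) ^ ℓ := by positivity
    nlinarith
  linarith

end Pool.Agent.X292.FW
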