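import Pool.Agent.X292.FW.Cls

/-!
# Stable classes around given local points

(The proof is that of `Pool.Agent.Y716.FF.Extract`.)
-/

namespace Pool.Agent.X292.FW

open Polynomial Module Pool.Agent.Y716.FF

variable {F : Type*} [Field F] [Finite F] {ι : Type*} [Fintype ι]

theorem exists_stable_at {e N w ℓ : ℕ} (hℓ : 1 ≤ ℓ) {f : MvPolynomial ι F[X]}
    (hf : IsForm (e + 2) (N + 1) f) (xP : F[X] → ι → F[X]) (xt : ι → F[X])
    (hfin : ∀ P ∈ primesLE F w, (∃ r : ι, xP P r = 1) ∧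
      P ^ (2 * ℓ) ∣ MvPolynomial.eval (xP P) f ∧ ¬ BadAt (P ^ ℓ) f)
    (hinf : (∃ r : ι, xt r = 1) ∧
      X ^ (2 * ℓ) ∣ MvPolynomial.eval xt (revForm N f) ∧ ¬ BadAt (X ^ ℓ) (revForm N f)) :
    ∃ (S J : F[X]) (xc v : ι → F[X]) (s j : ℕ) (vt : ι → F[X]),
      Stable e N w f S J xc v s j xt vt ∧ S * J = (∏ P ∈ primesLE F w, P) ^ (2 * ℓ) ∧
      s + j = 2 * ℓ ∧ (∀ P ∈ primesLE F w, P ^ ℓ ∣ S) ∧
      (∀ P ∈ primesLE F w, ∀ i, P ^ ℓ ∣ xc i - xP P i) ∧ ℓ ≤ s := by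
  classical
  -- data at the primes
  have hdat : ∀ P ∈ primesLE F w, ∃ (r : ι) (j : ℕ), xP P r = 1 ∧
      P ^ (2 * ℓ) ∣ MvPolynomial.eval (xP P) f ∧ j < ℓ ∧
      (∀ i, P ^ j ∣ MvPolynomial.eval (xP P) (MvPolynomial.pderiv i f)) ∧
      ∃ i, ¬ P ^ (j + 1) ∣ MvPolynomial.eval (xP P) (MvPolynomial.pderiv i f) := by
    intro P hP
    obtain ⟨⟨r, hx⟩, hd, hb⟩ := hfin P hP
    have : ¬ ∀ i, P ^ ℓ ∣ MvPolynomial.eval (xP P) (MvPolynomial.pderiv i f) := by
      intro h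
      exact hb ⟨r, xP P, hx, (pow_dvd_pow P (by omega)).trans hd, h⟩
    obtain ⟨j, hj, h1, h2⟩ := grad_level _ this
    exact ⟨r, j, hx, hd, hj, h1, h2⟩
  choose! rP jP hr hval hjlt hgr hgr' using hdat
  -- Chinese remainder theorem
  have hcrt : ∀ i, ∃ y : F[X], ∀ P ∈ primesLE F w, P ^ (2 * ℓ) ∣ y - xP P i := by
    intro i
    have := Ideal.exists_forall_sub_mem_ideal (R := F[X])
      (I := fun P : primesLE F w => Ideal.span {(P : F[X]) ^ (2 * ℓ)}) (by
        intro P Q hPQ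
        simp only [Function.onFun]
        rw [Ideal.isCoprime_span_singleton_iff]
        exact (primes_coprime P.2 Q.2 (fun h => hPQ (Subtype.ext h))).pow) (fun P => xP P i)
    obtain ⟨y, hy⟩ := this
    exact ⟨y, fun P hP => Ideal.mem_span_singleton.mp (hy ⟨P, hP⟩)⟩
  choose xc hxc using hcrt
  have hxc' : ∀ P ∈ primesLE F w, ∀ i, P ^ (2 * ℓ) ∣ xc i - xP P i := fun P hP i => hxc i P hP
  set S : F[X] := ∏ P ∈ primesLE F w, P ^ (2 * ℓ - jP P) with hS
  set J : F[X] := ∏ P ∈ primesLE F w, P ^ jP P with hJ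
  have hpw : ∀ a : F[X] → ℕ, (primesLE F w : Set F[X]).Pairwise
      (Function.onFun IsCoprime (fun P => P ^ a P)) := by
    intro a P hP Q hQ hne
    exact (primes_coprime hP hQ hne).pow
  have hSJ : S * J = (∏ P ∈ primesLE F w, P) ^ (2 * ℓ) := by
    rw [hS, hJ, ← Finset.prod_mul_distrib, ← Finset.prod_pow]
    refine Finset.prod_congr rfl (fun P hP => ?_)
    rw [← pow_add]
    congr 1
    have := hjlt P hP
    omega
  have hS0 : S ≠ 0 := by
    rw [hS, Finset.prod_ne_zero_iff]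
    intro P hP
    exact pow_ne_zero _ (mem_primesLE.mp hP).2.2.ne_zero
  have hJ0 : J ≠ 0 := by
    rw [hJ, Finset.prod_ne_zero_iff]
    intro P hP
    exact pow_ne_zero _ (mem_primesLE.mp hP).2.2.ne_zero
  -- gradient at xc
  have hgc : ∀ P ∈ primesLE F w, ∀ i, P ^ (2 * ℓ) ∣ MvPolynomial.eval xc (MvPolynomial.pderiv i f)
      - MvPolynomial.eval (xP P) (MvPolynomial.pderiv i f) := fun P hP i =>
    eval_congr_dvd _ (hxc' P hP)
  have hJg : ∀ i, J ∣ MvPolynomial.eval xc (MvPolynomial.pderiv i f) := by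
    intro i
    rw [hJ]
    apply Finset.prod_dvd_of_coprime (hpw jP)
    intro P hP
    have h1 := (pow_dvd_pow P (by have := hjlt P hP; omega : jP P ≤ 2 * ℓ)).trans (hgc P hP i)
    have := dvd_add h1 (hgr P hP i)
    simpa using this
  choose v hv using hJg
  -- the place at infinity
  obtain ⟨⟨rt, hxt⟩, hdt, hbt⟩ := hinf
  have hnt : ¬ ∀ i, X ^ ℓ ∣ MvPolynomial.eval xt (MvPolynomial.pderiv i (revForm N f)) := by
    intro h
    exact hbt ⟨rt, xt, hxt, (pow_dvd_pow X (by omega)).trans hdt, h⟩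
  obtain ⟨j, hj, hj1, i₁, hi₁⟩ := grad_level _ hnt
  choose vt hvt using hj1
  refine ⟨S, J, xc, v, 2 * ℓ - j, j, vt, ?_, hSJ, by omega, fun P hP => ?_,
    fun P hP i => (pow_dvd_pow P (by omega)).trans (hxc' P hP i), by omega⟩
  swap
  · rw [hS]
    have := hjlt P hP
    exact (pow_dvd_pow P (by omega : ℓ ≤ 2 * ℓ - jP P)).trans
      (Finset.dvd_prod_of_mem (fun P => P ^ (2 * ℓ - jP P)) hP)
  refine { hform := hf, hdat := ⟨?_, ?_, hv⟩, hdatt := ⟨?_, ?_, hvt⟩, hS := hS0, hJ := hJ0,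
           hPJ := ?_, hv := ?_, hprim := ?_, hSW := ?_, hjs := by omega, hvt := ?_, hxt := ?_ }
  · rw [hS, hJ]
    apply Finset.prod_dvd_prod_of_dvd
    intro P hP
    have := hjlt P hP
    exact pow_dvd_pow P (by omega)
  · rw [hSJ, ← Finset.prod_pow]
    apply Finset.prod_dvd_of_coprime (hpw (fun _ => 2 * ℓ))
    intro P hP
    have := dvd_add (eval_congr_dvd f (hxc' P hP)) (hval P hP)
    simpa using this
  · exact pow_dvd_pow X (by omega)
  · rw [← pow_add]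
    have : 2 * ℓ - j + j = 2 * ℓ := by omega
    rw [this]; exact hdt
  · intro P hP
    rw [hS, hJ, ← Finset.mul_prod_erase _ _ hP, ← Finset.mul_prod_erase _ _ hP, ← mul_assoc,
      ← pow_succ']
    have hjP := hjlt P hP
    apply mul_dvd_mul
    · exact pow_dvd_pow P (by omega)
    · apply Finset.prod_dvd_prod_of_dvd
      intro Q hQ
      have := hjlt Q (Finset.mem_of_mem_erase hQ)
      exact pow_dvd_pow Q (by omega)
  · intro P hP
    obtain ⟨i, hi⟩ := hgr' P hP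
    refine ⟨i, fun hd => hi ?_⟩
    have hjP := hjlt P hP
    have h1 : P ^ (jP P + 1) ∣ MvPolynomial.eval xc (MvPolynomial.pderiv i f) := by
      rw [hv i, pow_succ]
      apply mul_dvd_mul _ hd
      rw [hJ]
      exact Finset.dvd_prod_of_mem (fun P => P ^ jP P) hP
    have h2 := (pow_dvd_pow P (by omega : jP P + 1 ≤ 2 * ℓ)).trans (hgc P hP i)
    have := dvd_sub h1 h2
    simpa using this
  · intro P hP
    refine ⟨rP P hP, fun hd => ?_⟩
    have hPp := (mem_primesLE.mp hP).2.2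
    have h1 := (dvd_pow_self P (by omega : 2 * ℓ ≠ 0)).trans (hxc' P hP (rP P hP))
    rw [hr P hP] at h1
    have := dvd_sub hd h1
    rw [sub_sub_cancel] at this
    exact hPp.not_isUnit (isUnit_of_dvd_one this)
  · exact ⟨2 * ℓ, Dvd.intro J hSJ⟩
  · refine ⟨i₁, fun hd => hi₁ ?_⟩
    rw [hvt i₁, pow_succ]
    exact mul_dvd_mul_left _ hd
  · refine ⟨rt, fun hd => ?_⟩
    rw [hxt] at hd
    exact not_isUnit_X (isUnit_of_dvd_one hd)

end Pool.Agent.X292.FW
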