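import Pool.Agent.X292.FW.Exc

/-!
# Local zeros and their approximations

(The proofs extend those of `Pool.Agent.Y241.AdicApprox` and `Pool.Agent.Y241.LaurentApprox`.)
-/

set_option linter.unusedSectionVars false

namespace Pool.Agent.X292.FW

open Polynomial Module Pool.Agent.Y716.FF IsDedekindDomain IsDedekindDomain.HeightOneSpectrum
  WithZero

variable {F : Type*} [Field F] {ι : Type*} [Fintype ι]

/-- the value of a polynomial -/
theorem val_alg (v : HeightOneSpectrum F[X]) (a : F[X]) :
    (Valued.v : Valuation (v.adicCompletion (RatFunc F)) ℤᵐ⁰)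
      (algebraMap F[X] (v.adicCompletion (RatFunc F)) a) = v.intValuation a := by
  have h1 := valuedAdicCompletion_eq_valuation (K := RatFunc F) v a
  rw [← valuation_of_algebraMap (K := RatFunc F)]
  exact h1

theorem int_le_iff (v : HeightOneSpectrum F[X]) {P : F[X]} (hP : v.asIdeal = Ideal.span {P})
    (a : F[X]) (E : ℕ) : v.intValuation a ≤ exp (-(E : ℤ)) ↔ P ^ E ∣ a := by
  rw [v.intValuation_le_pow_iff_mem, hP, Ideal.span_singleton_pow, Ideal.mem_span_singleton]

/-- approximations of zeros at a finite place -/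
theorem approx_adic {d : ℕ} (f : MvPolynomial ι F[X]) (hf : f.IsHomogeneous d)
    (v : HeightOneSpectrum F[X]) (P : F[X]) (hP : v.asIdeal = Ideal.span {P})
    (x : ι → v.adicCompletion (RatFunc F)) (hx0 : x ≠ 0) (hx : MvPolynomial.aeval x f = 0) :
    ∃ r : ι, x r ≠ 0 ∧ ∀ E : ℕ, ∃ y : ι → F[X], y r = 1 ∧ P ^ E ∣ MvPolynomial.eval y f ∧
      ∀ i, Valued.v (x i - x r * algebraMap F[X] (v.adicCompletion (RatFunc F)) (y i)) ≤
        exp (-(E : ℤ)) * Valued.v (x r) := by
  classical
  obtain ⟨i0, hi0⟩ : ∃ i, x i ≠ 0 := Function.ne_iff.mp hx0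
  let val : Valuation (v.adicCompletion (RatFunc F)) ℤᵐ⁰ := Valued.v
  obtain ⟨r, -, hr⟩ := Finset.exists_max_image Finset.univ (fun i => val (x i))
    ⟨i0, Finset.mem_univ _⟩
  have hxr : x r ≠ 0 := by
    intro h0
    have h1 := hr i0 (Finset.mem_univ _)
    rw [h0, map_zero] at h1
    exact hi0 ((map_eq_zero val).1 (le_antisymm h1 zero_le))
  refine ⟨r, hxr, fun E => ?_⟩
  let z : ι → v.adicCompletion (RatFunc F) := fun i => (x r)⁻¹ * x i
  have hz : MvPolynomial.aeval z f = 0 := by
    simp only [z]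
    rw [Pool.Agent.Y241.aeval_smul_hom f hf, hx, mul_zero]
  have hz1 : ∀ i, val (z i) ≤ 1 := by
    intro i
    simp only [z, map_mul, map_inv₀]
    have h1 := hr i (Finset.mem_univ _)
    have h2 : val (x r) ≠ 0 := (map_ne_zero val).2 hxr
    calc (val (x r))⁻¹ * val (x i) ≤ (val (x r))⁻¹ * val (x r) := by gcongr
      _ = 1 := inv_mul_cancel₀ h2
  have hzr : z r = 1 := inv_mul_cancel₀ hxr
  let γ : ℤᵐ⁰ := exp (-(E : ℤ))
  have hγ0 : γ ≠ 0 := exp_ne_zero
  have hγ1 : γ ≤ 1 := by
    change exp (-(E : ℤ)) ≤ 1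
    rw [← exp_zero, exp_le_exp]
    omega
  have hval : ∀ a : F[X], val (algebraMap F[X] (v.adicCompletion (RatFunc F)) a)
      = v.intValuation a := val_alg v
  have happ : ∀ i, ∃ a : F[X], (i = r → a = 1) ∧
      val (algebraMap F[X] (v.adicCompletion (RatFunc F)) a - z i) ≤ γ := by
    intro i
    by_cases hir : i = r
    · refine ⟨1, fun _ => rfl, ?_⟩
      rw [hir, hzr, map_one, sub_self, map_zero]
      exact zero_le
    have hopen : IsOpen {w : v.adicCompletion (RatFunc F) | val (w - z i) < γ} := by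
      obtain ⟨ϖ, hϖ⟩ := v.intValuation_exists_uniformizer
      have h0 : val (algebraMap F[X] (v.adicCompletion (RatFunc F)) (ϖ ^ E)) = γ := by
        rw [hval, map_pow, hϖ, ← exp_nsmul]
        simp [γ]
      have h1 : IsOpen {w : v.adicCompletion (RatFunc F) | val w < γ} := by
        have h2 := Valued.isOpen_ball (v.adicCompletion (RatFunc F))
          (val.restrict (algebraMap F[X] (v.adicCompletion (RatFunc F)) (ϖ ^ E)))
        have h3 : {w : v.adicCompletion (RatFunc F) | val w < γ} =
            {w | val.restrict w < val.restrict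
              (algebraMap F[X] (v.adicCompletion (RatFunc F)) (ϖ ^ E))} := by
          ext w
          simp only [Set.mem_ofPred_eq]
          rw [Valuation.restrict_lt_iff, h0]
        rw [h3]
        exact h2
      exact h1.preimage (continuous_id.sub continuous_const)
    obtain ⟨k, hk⟩ := (denseRange_algebraMap (R := F[X]) (RatFunc F) v).exists_mem_open hopen
      ⟨z i, by simp only [Set.mem_ofPred_eq, sub_self, map_zero]; exact zero_lt_iff.2 hγ0⟩
    have hk1 : val (algebraMap (RatFunc F) (v.adicCompletion (RatFunc F)) k - z i) < γ := hk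
    have hkv : ∀ k : RatFunc F, val (algebraMap (RatFunc F) (v.adicCompletion (RatFunc F)) k)
        = v.valuation (RatFunc F) k := fun k => valuedAdicCompletion_eq_valuation' (R := F[X]) v k
    have hk2 : v.valuation (RatFunc F) k ≤ 1 := by
      rw [← hkv]
      have h3 : algebraMap (RatFunc F) (v.adicCompletion (RatFunc F)) k =
        (algebraMap (RatFunc F) (v.adicCompletion (RatFunc F)) k - z i) + z i := by ring
      rw [h3]
      exact (val.map_add _ _).trans (max_le (hk1.le.trans hγ1) (hz1 i))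
    obtain ⟨a, ha⟩ := exists_valuation_sub_lt_of_integer (K := RatFunc F) v hk2 (Units.mk0 γ hγ0)
    refine ⟨a, fun h => absurd h hir, ?_⟩
    have h4 : algebraMap F[X] (v.adicCompletion (RatFunc F)) a - z i =
        algebraMap (RatFunc F) (v.adicCompletion (RatFunc F)) (algebraMap F[X] (RatFunc F) a - k) +
        (algebraMap (RatFunc F) (v.adicCompletion (RatFunc F)) k - z i) := by
      rw [map_sub, ← IsScalarTower.algebraMap_apply]
      ring
    rw [h4]
    refine (val.map_add _ _).trans (max_le ?_ hk1.le)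
    rw [hkv]
    exact ha.le
  choose y hy1 hy2 using happ
  have hmain : ∀ g : MvPolynomial ι F[X], val (MvPolynomial.aeval z g) ≤ 1 ∧
      val (algebraMap F[X] (v.adicCompletion (RatFunc F)) (MvPolynomial.eval y g) -
        MvPolynomial.aeval z g) ≤ γ := by
    intro g
    induction g using MvPolynomial.induction_on with
    | C a =>
      refine ⟨?_, ?_⟩
      · rw [MvPolynomial.algHom_C, hval]
        exact v.intValuation_le_one a
      · rw [MvPolynomial.algHom_C, MvPolynomial.eval_C, sub_self, map_zero]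
        exact zero_le
    | add p q hp hq =>
      refine ⟨?_, ?_⟩
      · rw [map_add]
        exact (val.map_add _ _).trans (max_le hp.1 hq.1)
      · rw [map_add, map_add, map_add, add_sub_add_comm]
        exact (val.map_add _ _).trans (max_le hp.2 hq.2)
    | mul_X p i hp =>
      have hX : MvPolynomial.aeval z (p * MvPolynomial.X i) = MvPolynomial.aeval z p * z i := by
        rw [map_mul, MvPolynomial.aeval_X]
      refine ⟨?_, ?_⟩
      · rw [hX, map_mul]
        exact mul_le_one' hp.1 (hz1 i)
      · rw [hX, map_mul, MvPolynomial.eval_X, map_mul]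
        have h5 : algebraMap F[X] (v.adicCompletion (RatFunc F)) (MvPolynomial.eval y p) *
            algebraMap F[X] (v.adicCompletion (RatFunc F)) (y i) - MvPolynomial.aeval z p * z i =
            (algebraMap F[X] (v.adicCompletion (RatFunc F)) (MvPolynomial.eval y p) -
              MvPolynomial.aeval z p) * algebraMap F[X] (v.adicCompletion (RatFunc F)) (y i) +
            MvPolynomial.aeval z p *
              (algebraMap F[X] (v.adicCompletion (RatFunc F)) (y i) - z i) := by ring
        rw [h5]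
        refine (val.map_add _ _).trans (max_le ?_ ?_)
        · rw [map_mul, hval (y i)]
          exact (mul_le_mul' hp.2 (v.intValuation_le_one _)).trans (by rw [mul_one])
        · rw [map_mul]
          exact (mul_le_mul' hp.1 (hy2 i)).trans (by rw [one_mul])
  refine ⟨y, hy1 r rfl, ?_, fun i => ?_⟩
  · have h6 := (hmain f).2
    rw [hz, sub_zero, hval] at h6
    exact (int_le_iff v hP _ E).1 h6
  · have h7 : x i - x r * algebraMap F[X] (v.adicCompletion (RatFunc F)) (y i) =
        -((algebraMap F[X] (v.adicCompletion (RatFunc F)) (y i) - z i) * x r) := by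
      simp only [z]
      field_simp
      ring
    change val _ ≤ _ * val _
    rw [h7, Valuation.map_neg, map_mul]
    exact mul_le_mul' (hy2 i) le_rfl

/-- data at a finite place for the precision `m` -/
theorem local_adic {d : ℕ} (m : ℕ) (f : MvPolynomial ι F[X]) (hf : f.IsHomogeneous d)
    (v : HeightOneSpectrum F[X]) (P : F[X]) (hP : v.asIdeal = Ideal.span {P})
    (x : ι → v.adicCompletion (RatFunc F)) (hx0 : x ≠ 0) (hx : MvPolynomial.aeval x f = 0) :
    ∃ c : ι → F[X], (∀ E : ℕ, ∃ (r : ι) (y : ι → F[X]), y r = 1 ∧ P ^ E ∣ MvPolynomial.eval y f ∧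
      ∀ i, P ^ m ∣ y i - c i) ∧
      ∀ y : ι → F[X], (∀ i, P ^ m ∣ y i - c i) → ∃ r : ι, x r ≠ 0 ∧
        ∀ i, Valued.v (x i - x r * algebraMap F[X] (v.adicCompletion (RatFunc F)) (y i)) ≤
          exp (-(m : ℤ)) * Valued.v (x r) := by
  obtain ⟨r, hr0, hap⟩ := approx_adic f hf v P hP x hx0 hx
  let val : Valuation (v.adicCompletion (RatFunc F)) ℤᵐ⁰ := Valued.v
  have hvr : 0 < val (x r) := zero_lt_iff.2 ((map_ne_zero val).2 hr0)
  obtain ⟨c, hc1, hc2, hc3⟩ := hap m
  refine ⟨c, fun E => ?_, fun y hy => ⟨r, hr0, fun i => ?_⟩⟩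
  · obtain ⟨y, hy1, hy2, hy3⟩ := hap (max E m)
    refine ⟨r, y, hy1, (pow_dvd_pow _ (le_max_left _ _)).trans hy2, fun i => ?_⟩
    rw [← int_le_iff v hP, ← val_alg v]
    have h1 : x r * algebraMap F[X] (v.adicCompletion (RatFunc F)) (y i - c i) =
        (x i - x r * algebraMap F[X] (v.adicCompletion (RatFunc F)) (c i)) -
        (x i - x r * algebraMap F[X] (v.adicCompletion (RatFunc F)) (y i)) := by
      rw [map_sub]
      ring
    have h2 : val (x r * algebraMap F[X] (v.adicCompletion (RatFunc F)) (y i - c i)) ≤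
        exp (-(m : ℤ)) * val (x r) := by
      rw [h1]
      refine (val.map_sub _ _).trans (max_le (hc3 i) ((hy3 i).trans ?_))
      refine mul_le_mul' ?_ le_rfl
      rw [exp_le_exp]
      have := le_max_right E m
      omega
    rw [map_mul, mul_comm] at h2
    exact le_of_mul_le_mul_right h2 hvr
  · have h1 : x i - x r * algebraMap F[X] (v.adicCompletion (RatFunc F)) (y i) =
        (x i - x r * algebraMap F[X] (v.adicCompletion (RatFunc F)) (c i)) -
        algebraMap F[X] (v.adicCompletion (RatFunc F)) (y i - c i) * x r := by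
      rw [map_sub]
      ring
    change val _ ≤ _ * val _
    rw [h1]
    refine (val.map_sub _ _).trans (max_le (hc3 i) ?_)
    rw [map_mul]
    refine mul_le_mul' ?_ le_rfl
    rw [val_alg v, int_le_iff v hP]
    exact hy i

/-- data at infinity for the precision `m` -/
theorem local_laurent {d N : ℕ} (m : ℕ) (f : MvPolynomial ι F[X]) (hf : f.IsHomogeneous d)
    (hN : ∀ m, (f.coeff m).natDegree ≤ N) (x : ι → LaurentSeries F) (hx0 : x ≠ 0)
    (hx : MvPolynomial.eval₂ (Pool.Agent.Y241.toInfty F) x f = 0) :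
    ∃ b : ι → F[X], (∀ i, (b i).degree < m) ∧
      (∀ E : ℕ, ∃ (r : ι) (y : ι → F[X]), y r = 1 ∧ X ^ E ∣ MvPolynomial.eval y (revForm N f) ∧
        ∀ i, X ^ m ∣ y i - b i) ∧
      ∀ (B : ℕ) (y : ι → F[X]), (∀ i, (y i).natDegree ≤ B) → (∀ i, X ^ m ∣ reflect B (y i) - b i) →
        ∃ (r : ι) (c : LaurentSeries F), x r ≠ 0 ∧ c ≠ 0 ∧ ∀ i, ∀ n : ℤ, n < (x r).order + m →
          (x i - c * Pool.Agent.Y241.toInfty F (y i)).coeff n = 0 := by
  classical
  obtain ⟨i0, hi0⟩ : ∃ i, x i ≠ 0 := Function.ne_iff.mp hx0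
  obtain ⟨r, hrm, hr⟩ := Finset.exists_min_image (Finset.univ.filter fun i => x i ≠ 0)
    (fun i => (x i).order) ⟨i0, by simpa using hi0⟩
  have hxr : x r ≠ 0 := by simpa using hrm
  have hr' : ∀ i, x i ≠ 0 → (x r).order ≤ (x i).order := fun i hi => hr i (by simpa using hi)
  -- every coordinate divided by the largest one is a power series
  have hz : ∀ i, ∃ z : PowerSeries F, (i = r → z = 1) ∧
      HahnSeries.ofPowerSeries ℤ F z = (x r)⁻¹ * x i := by
    intro i
    by_cases hir : i = r
    · refine ⟨1, fun _ => rfl, ?_⟩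
      rw [hir, map_one, inv_mul_cancel₀ hxr]
    by_cases hxi : x i = 0
    · exact ⟨0, fun h => absurd h hir, by rw [hxi, mul_zero, map_zero]⟩
    have hne : (x r)⁻¹ * x i ≠ 0 := mul_ne_zero (inv_ne_zero hxr) hxi
    have hord : 0 ≤ ((x r)⁻¹ * x i).order := by
      have h1 : (x r * ((x r)⁻¹ * x i)).order = (x r).order + ((x r)⁻¹ * x i).order :=
        HahnSeries.order_mul hxr hne
      rw [mul_inv_cancel_left₀ hxr] at h1
      have h2 := hr' i hxi
      omega
    obtain ⟨n, hn⟩ := Int.eq_ofNat_of_zero_le hord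
    refine ⟨PowerSeries.X ^ n * LaurentSeries.powerSeriesPart ((x r)⁻¹ * x i),
      fun h => absurd h hir, ?_⟩
    exact LaurentSeries.X_order_mul_powerSeriesPart hn.symm
  choose z hz1 hz2 using hz
  have h0 : MvPolynomial.eval₂ (Pool.Agent.Y241.toInfty F) (fun i => (x r)⁻¹ * x i) f = 0 := by
    rw [Pool.Agent.Y241.eval₂_smul_hom _ f hf, hx, mul_zero]
  rw [Pool.Agent.Y241.eval₂_revForm N f hN] at h0
  have h1 : MvPolynomial.eval₂ (Pool.Agent.Y241.toLau F) (fun i => (x r)⁻¹ * x i)
      (revForm N f) = 0 := by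
    rcases mul_eq_zero.1 h0 with h2 | h2
    · exact absurd h2 (HahnSeries.single_ne_zero one_ne_zero)
    · exact h2
  have h2 : MvPolynomial.eval₂ (Polynomial.coeToPowerSeries.ringHom (R := F)) z
      (revForm N f) = 0 := by
    apply HahnSeries.ofPowerSeries_injective (Γ := ℤ) (R := F)
    rw [map_zero, ← h1, MvPolynomial.hom_eval₂]
    simp only [hz2]
    rfl
  have htr : ∀ (E : ℕ) (w : PowerSeries F), (PowerSeries.X : PowerSeries F) ^ E ∣
      w - ((PowerSeries.trunc E w : F[X]) : PowerSeries F) := by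
    intro E w
    rw [PowerSeries.X_pow_dvd_iff]
    intro n hn
    rw [map_sub, Polynomial.coeff_coe, PowerSeries.coeff_trunc, if_pos hn, sub_self]
  have hcoe : ∀ (E : ℕ) (p : F[X]), (PowerSeries.X : PowerSeries F) ^ E ∣ (p : PowerSeries F) ↔
      X ^ E ∣ p := by
    intro E p
    rw [PowerSeries.X_pow_dvd_iff, Polynomial.X_pow_dvd_iff]
    simp only [Polynomial.coeff_coe]
  refine ⟨fun i => PowerSeries.trunc m (z i), fun i => PowerSeries.degree_trunc_lt _ _,
    fun E => ?_, fun B y hyB hy => ?_⟩
  · -- truncate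
    set M := max E m with hM
    let y : ι → F[X] := fun i => if i = r then 1 else PowerSeries.trunc M (z i)
    have hyz : ∀ i, (PowerSeries.X : PowerSeries F) ^ M ∣ z i - (y i : PowerSeries F) := by
      intro i
      by_cases hir : i = r
      · have h3 : y i = 1 := by simp [y, hir]
        rw [h3, hir, hz1 r rfl, Polynomial.coe_one, sub_self]
        exact dvd_zero _
      · have h3 : y i = PowerSeries.trunc M (z i) := by simp [y, hir]
        rw [h3]
        exact htr M (z i)
    have hcong : ∀ i, (Ideal.Quotient.mk (Ideal.span {(PowerSeries.X : PowerSeries F) ^ M}))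
        (z i) = (Ideal.Quotient.mk (Ideal.span {(PowerSeries.X : PowerSeries F) ^ M}))
        (Polynomial.coeToPowerSeries.ringHom (y i)) := by
      intro i
      rw [Ideal.Quotient.eq, Ideal.mem_span_singleton]
      exact hyz i
    refine ⟨r, y, by simp [y], ?_, fun i => ?_⟩
    · have h3 : (Ideal.Quotient.mk (Ideal.span {(PowerSeries.X : PowerSeries F) ^ M}))
          (Polynomial.coeToPowerSeries.ringHom (MvPolynomial.eval y (revForm N f))) = 0 := by
        have h4 := congrArg (Ideal.Quotient.mk (Ideal.span {(PowerSeries.X : PowerSeries F) ^ M})) h2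
        rw [map_zero, MvPolynomial.hom_eval₂] at h4
        rw [← h4, ← MvPolynomial.eval₂_id, MvPolynomial.hom_eval₂, MvPolynomial.hom_eval₂]
        simp only [RingHom.comp_id, hcong]
      rw [Ideal.Quotient.eq_zero_iff_mem, Ideal.mem_span_singleton] at h3
      exact (hcoe E _).1 ((pow_dvd_pow _ (le_max_left _ _)).trans h3)
    · rw [← hcoe, Polynomial.coe_sub]
      have h3 := dvd_sub (htr m (z i)) ((pow_dvd_pow _ (le_max_right E m)).trans (hyz i))
      have h4 : z i - ((PowerSeries.trunc m (z i) : F[X]) : PowerSeries F) -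
          (z i - (y i : PowerSeries F)) = (y i : PowerSeries F) -
            ((PowerSeries.trunc m (z i) : F[X]) : PowerSeries F) := by ring
      rwa [h4] at h3
  · refine ⟨r, x r * HahnSeries.single (B : ℤ) 1, hxr,
      mul_ne_zero hxr (HahnSeries.single_ne_zero one_ne_zero), fun i n hn => ?_⟩
    have h3 : (PowerSeries.X : PowerSeries F) ^ m ∣ z i - (reflect B (y i) : PowerSeries F) := by
      have h4 := dvd_sub (htr m (z i)) ((hcoe m _).2 (hy i))
      rw [Polynomial.coe_sub] at h4
      have h5 : z i - ((PowerSeries.trunc m (z i) : F[X]) : PowerSeries F) -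
          ((reflect B (y i) : F[X]) - ((PowerSeries.trunc m (z i) : F[X]) : PowerSeries F)) =
          z i - (reflect B (y i) : PowerSeries F) := by ring
      rwa [h5] at h4
    obtain ⟨g, hg⟩ := h3
    have h4 : x i - x r * HahnSeries.single (B : ℤ) 1 * Pool.Agent.Y241.toInfty F (y i) =
        x r * (HahnSeries.single (m : ℤ) 1 * HahnSeries.ofPowerSeries ℤ F g) := by
      rw [Pool.Agent.Y241.toInfty_eq B _ (hyB i)]
      have h5 : x i = x r * HahnSeries.ofPowerSeries ℤ F (z i) := by
        rw [hz2, mul_inv_cancel_left₀ hxr]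
      have h6 : HahnSeries.single (m : ℤ) (1 : F) * HahnSeries.ofPowerSeries ℤ F g =
          HahnSeries.ofPowerSeries ℤ F (z i) - Pool.Agent.Y241.toLau F (reflect B (y i)) := by
        rw [← HahnSeries.ofPowerSeries_X_pow, ← map_mul, ← hg, map_sub]
        rfl
      have h7 : (HahnSeries.single (B : ℤ) (1 : F) : LaurentSeries F) *
          HahnSeries.single (-(B : ℤ)) 1 = 1 := by
        rw [HahnSeries.single_mul_single, add_neg_cancel, one_mul]
        rfl
      rw [h6]
      conv_lhs => rw [h5]
      linear_combination (-(x r) * Pool.Agent.Y241.toLau F (reflect B (y i))) * h7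
    rw [h4]
    apply HahnSeries.coeff_eq_zero_of_lt_orderTop
    refine lt_of_lt_of_le ?_ HahnSeries.orderTop_add_le_mul
    rw [← HahnSeries.order_eq_orderTop_of_ne_zero hxr]
    have h8 : ((m : ℤ) : WithTop ℤ) ≤ (HahnSeries.single (m : ℤ) (1 : F) *
        HahnSeries.ofPowerSeries ℤ F g).orderTop := by
      refine le_trans ?_ HahnSeries.orderTop_add_le_mul
      rw [HahnSeries.orderTop_single one_ne_zero]
      have h9 : (0 : WithTop ℤ) ≤ (HahnSeries.ofPowerSeries ℤ F g).orderTop := by
        rw [HahnSeries.le_orderTop_iff_forall]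
        intro j hj
        have hj' : j < 0 := by exact_mod_cast hj
        rw [PowerSeries.coeff_coe, if_pos hj']
      calc ((m : ℤ) : WithTop ℤ) = ((m : ℤ) : WithTop ℤ) + 0 := (add_zero _).symm
        _ ≤ _ := by gcongr
    calc (n : WithTop ℤ) < (((x r).order + m : ℤ) : WithTop ℤ) := by exact_mod_cast hn
      _ = ((x r).order : WithTop ℤ) + ((m : ℤ) : WithTop ℤ) := by push_cast; rfl
      _ ≤ _ := by gcongr

end Pool.Agent.X292.FW
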